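import Pool.Agent.Helper12.MA.StD

/-! # Project MA (MP_d63854_co): module HDD (`HD` gives servers) -/

set_option autoImplicit false

namespace Pool.Agent.Helper47.MA

open Pool.Agent.Helper12.MA
open Pool.Agent.Helper51.AJ (IsMinor Planar Apex ExMinor Con Tch)
open Pool.Agent.Helper12.NK (rst Kc add cnt Pcy IsFace Cof plus)

theorem hHDD : StHDD := by
  intro V _ G hHD x y hxy
  obtain ⟨s, hsx, hsy, hpl⟩ := hHD x y hxy
  refine ⟨s, hsx, hsy, ?_⟩
  have e : add (rst G {s, x}ᶜ) x ({b | G.Adj x b} \ {s, y}) = rst (dl G x y) {s}ᶜ := by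
    ext a b
    show ((G.Adj a b ∧ a ∈ ({s, x} : Set V)ᶜ ∧ b ∈ ({s, x} : Set V)ᶜ) ∨
      (a = x ∧ b ∈ ({b | G.Adj x b} \ {s, y} : Set V) ∧ b ≠ x) ∨
      (b = x ∧ a ∈ ({b | G.Adj x b} \ {s, y} : Set V) ∧ a ≠ x)) ↔
      ((G.Adj a b ∧ ¬ (a = x ∧ b = y) ∧ ¬ (a = y ∧ b = x)) ∧ a ∈ ({s} : Set V)ᶜ ∧
        b ∈ ({s} : Set V)ᶜ)
    simp only [Set.mem_compl_iff, Set.mem_insert_iff, Set.mem_singleton_iff, not_or,
      Set.mem_diff, Set.mem_setOf_eq]
    by_cases ha : a = x
    · subst ha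
      by_cases hb : b = a
      · subst hb
        constructor
        · rintro (h | h | h)
          · exact absurd h.1 (G.loopless.irrefl b)
          · exact absurd h.2.1.1 (G.loopless.irrefl b)
          · exact absurd h.2.1.1 (G.loopless.irrefl b)
        · intro h
          exact absurd h.1.1 (G.loopless.irrefl b)
      · constructor
        · rintro (h | h | h)
          · exact absurd rfl h.2.1.2
          · exact ⟨⟨h.2.1.1, fun k => h.2.1.2.2 k.2, fun k => hb k.2⟩, Ne.symm hsx, h.2.1.2.1⟩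
          · exact absurd h.1 hb
        · intro h
          exact Or.inr (Or.inl ⟨rfl, ⟨h.1.1, h.2.2, fun k => h.1.2.1 ⟨rfl, k⟩⟩, hb⟩)
    · by_cases hb : b = x
      · subst hb
        constructor
        · rintro (h | h | h)
          · exact absurd rfl h.2.2.2
          · exact absurd h.1 ha
          · exact ⟨⟨h.2.1.1.symm, fun k => ha k.1, fun k => h.2.1.2.2 k.1⟩, h.2.1.2.1, Ne.symm hsx⟩
        · intro h
          exact Or.inr (Or.inr ⟨rfl, ⟨h.1.1.symm, h.2.1, fun k => h.1.2.2 ⟨k, rfl⟩⟩, ha⟩)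
      · constructor
        · rintro (h | h | h)
          · exact ⟨⟨h.1, fun k => ha k.1, fun k => hb k.2⟩, h.2.1.1, h.2.2.1⟩
          · exact absurd h.1 ha
          · exact absurd h.1 hb
        · intro h
          exact Or.inl ⟨h.1.1, ⟨h.2.1, ha⟩, ⟨h.2.2, hb⟩⟩
  rw [← e]
  exact hpl

end Pool.Agent.Helper47.MA
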