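import Pool.Agent.Helper12.MA.StC

/-! # Project MA (MP_d63854_co): module MCF (`x` in `f3` and `y` in `f1` is impossible) -/

set_option autoImplicit false

namespace Pool.Agent.Helper47.MA

open Pool.Agent.Helper12.MA
open Pool.Agent.Helper51.AJ (IsMinor Planar Apex ExMinor Con Tch)
open Pool.Agent.Helper12.NK (rst Kc add cnt Pcy IsFace Cof plus)

section

variable {V : Type} {G : SimpleGraph V} {z v p q r r' : V} {f1 f2 f3 f4 X₀ Y₀ : Set V} {x y : V}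

private lemma dl_comm (G : SimpleGraph V) (p q : V) : dl G q p = dl G p q := by
  ext a b
  show (G.Adj a b ∧ ¬ (a = q ∧ b = p) ∧ ¬ (a = p ∧ b = q)) ↔
    (G.Adj a b ∧ ¬ (a = p ∧ b = q) ∧ ¬ (a = q ∧ b = p))
  tauto

private lemma cut_X {σ b : V} {X Y : Set V} (c : Cut G z v p q r r' f1 f3 σ b X Y) {t : V}
    (ht : t ∈ X) : t ≠ v ∧ t ≠ z ∧ t ≠ σ ∧ t ≠ b ∧ t ∉ Y := by
  have h1 : t ∈ ({v, z, σ, b} : Set V)ᶜ := by
    rw [← c.sep.cov]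
    exact Or.inl ht
  simp only [Set.mem_compl_iff, Set.mem_insert_iff, Set.mem_singleton_iff, not_or] at h1
  refine ⟨h1.1, h1.2.1, h1.2.2.1, h1.2.2.2, fun hY => ?_⟩
  exact Set.disjoint_left.mp c.sep.dis ht hY

private lemma cut_Y {σ b : V} {X Y : Set V} (c : Cut G z v p q r r' f1 f3 σ b X Y) {t : V}
    (ht : t ∈ Y) : t ≠ v ∧ t ≠ z ∧ t ≠ σ ∧ t ≠ b ∧ t ∉ X := by
  have h1 : t ∈ ({v, z, σ, b} : Set V)ᶜ := by
    rw [← c.sep.cov]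
    exact Or.inr ht
  simp only [Set.mem_compl_iff, Set.mem_insert_iff, Set.mem_singleton_iff, not_or] at h1
  refine ⟨h1.1, h1.2.1, h1.2.2.1, h1.2.2.2, fun hX => ?_⟩
  exact Set.disjoint_left.mp c.sep.dis hX ht

private lemma cut_cov {σ b : V} {X Y : Set V} (c : Cut G z v p q r r' f1 f3 σ b X Y) {t : V}
    (h1 : t ≠ v) (h2 : t ≠ z) (h3 : t ≠ σ) (h4 : t ≠ b) (h5 : t ∉ X) : t ∈ Y := by
  have h6 : t ∈ X ∪ Y := by
    rw [c.sep.cov]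
    simp only [Set.mem_compl_iff, Set.mem_insert_iff, Set.mem_singleton_iff, not_or]
    exact ⟨h1, h2, h3, h4⟩
  rcases h6 with h | h
  · exact absurd h h5
  · exact h

private lemma cut_sz {σ b : V} {X Y : Set V} (c : Cut G z v p q r r' f1 f3 σ b X Y) : σ ≠ z := by
  intro h
  have h1 := c.sep.card
  rw [h] at h1
  have e : ({v, z, z, b} : Set V) = {v, z, b} := by
    rw [Set.insert_idem z {b}]
  rw [e] at h1
  have h2 := Set.ncard_insert_le v ({z, b} : Set V)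
  have h3 := Set.ncard_insert_le z ({b} : Set V)
  rw [Set.ncard_singleton] at h3
  omega

/-- elements of `X₀` on `f3` are in `Γ` -/
private lemma inG [Finite V] (hGAA : StGAA) (hSYM : StSYM)
    (E : Env G z v p q r r' f1 f2 f3 f4 X₀ Y₀ x y) {t b : V} {X Y Γ : Set V}
    (hN : Ng G z v p q r r' t Γ)
    (hc : Cut G z v p q r r' f1 f3 t b X Y ∨ Cut G z v p q r r' f1 f3 b t X Y) {w : V}
    (hw : w ∈ X₀) (hw3 : w ∈ f3) : w ∈ Γ := by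
  rcases hc with hc | hc
  · obtain ⟨s1, _, s3, s4⟩ := hSYM V G z v p q r r' f1 f2 f3 f4 E.cf
    have hN' := (s3 t Γ hN).1
    have hc' := s4 t b X Y hc
    obtain ⟨_, g2, _⟩ := hGAA V G z v q p r' r f3 f4 f1 f2 s1 b t Y X Γ hc' hN'
    have hwX : w ∈ X := (E.mX t b X Y hc).1 hw
    have : w ∈ f3 ∩ X := ⟨hw3, hwX⟩
    rw [← g2] at this
    exact this.1
  · obtain ⟨_, _, g3, _⟩ := hGAA V G z v p q r r' f1 f2 f3 f4 E.cf b t X Y Γ hc hN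
    exact g3 ⟨hw3, (E.mX b t X Y hc).1 hw⟩

private lemma facts (E : Env G z v p q r r' f1 f2 f3 f4 X₀ Y₀ x y) :
    x ≠ z ∧ x ≠ q ∧ y ≠ z ∧ y ≠ p := by
  obtain ⟨σ₁, b₁, Y₁, c₁⟩ := E.cX
  obtain ⟨σ₂, b₂, X₂, c₂⟩ := E.cY
  have h1 := cut_X c₁ E.xX
  have h2 := cut_Y c₂ E.yY
  refine ⟨h1.2.1, ?_, h2.2.1, ?_⟩
  · intro h
    apply h1.2.2.2.2
    rw [h]
    exact c₁.sep.yR
  · intro h
    apply h2.2.2.2.2
    rw [h]
    exact c₂.sep.xL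

/-- the types of the `w` -/
private lemma typM [Finite V] (hCRN : StCRN) (hENS : StENS) (hENT : StENT)
    (E : Env G z v p q r r' f1 f2 f3 f4 X₀ Y₀ x y) (hx : x ∈ f3) (hy : y ∈ f1) {w : V}
    (hvw : G.Adj v w) (hwz : w ≠ z) (hwx : w ≠ x) (hwy : w ≠ y) :
    ∃ t b X Y Γ, TN G z v p q r r' w t Γ ∧
      (Cut G z v p q r r' f1 f3 t b X Y ∨ Cut G z v p q r r' f1 f3 b t X Y) := by
  obtain ⟨hxz, hxq, hyz, hyp⟩ := facts E
  obtain ⟨n1, _, n3, _, _, _⟩ := hCRN V G z v p q r r' f1 f2 f3 f4 E.cf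
  have hE3 := (hENS V G z v p q r r' f1 f2 f3 f4 X₀ Y₀ x y E).2.2.1
  have h13 : ∀ t, t ∈ f1 → t ∈ f3 → t = z := by
    intro t h h'
    have : t ∈ f1 ∩ f3 := ⟨h, h'⟩
    rw [E.cf.x13] at this
    exact this
  rcases hENT V G z v p q r r' f1 f2 f3 f4 X₀ Y₀ x y E w hvw hwz hwx hwy with
    h | h | h | h | h | h | h
  · exact absurd (h13 x h.2.1 hx) hxz
  · exact absurd (h13 y hy h.2.1) hyz
  · obtain ⟨F, _, hF, _, hxF, hyF, _⟩ := h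
    exact absurd ⟨F, hF, hyF, hxF⟩ (hE3 y hy x hx hyz hyp E.yr hxz hxq E.xs (Or.inl (Or.inr E.yY)))
  · exact absurd (n3 x hx hxz h.2.2) E.xs
  · exact absurd (n1 y hy hyz h.2.2) E.yr
  · obtain ⟨t, b, X, Y, Γ, hc, hT, _⟩ := h
    exact ⟨t, b, X, Y, Γ, hT, Or.inl hc⟩
  · obtain ⟨σ, t, X, Y, Γ, hc, hT, _⟩ := h
    exact ⟨t, σ, X, Y, Γ, hT, Or.inr hc⟩

private lemma notX [Finite V] (hCRN : StCRN) (hPVB : StPVB) (hGAA : StGAA) (hENS : StENS)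
    (hENT : StENT) (hMCE : StMCE) (hSYM : StSYM)
    (E : Env G z v p q r r' f1 f2 f3 f4 X₀ Y₀ x y) (hx : x ∈ f3) (hy : y ∈ f1) {w : V}
    (hvw : G.Adj v w) (hwz : w ≠ z) (hwx : w ≠ x) (hwy : w ≠ y) :
    w ∉ X₀ ∧ w ≠ r ∧ w ≠ r' := by
  obtain ⟨t, b, X, Y, Γ, hT, hc⟩ := typM hCRN hENS hENT E hx hy hvw hwz hwx hwy
  have hwr : w ≠ r := fun h => hT.2.2.1 (by rw [h]; exact hT.1.r)
  have hwr' : w ≠ r' := fun h => hT.2.2.1 (by rw [h]; exact hT.1.s)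
  refine ⟨fun hwX => ?_, hwr, hwr'⟩
  have hwp : w ≠ p := fun h => (hPVB V G z v p q r r' f1 f2 f3 f4 E.cf).1 (by rw [← h]; exact hvw)
  have E' : Env G z v p q r r' f1 f2 f3 f4 X₀ Y₀ w y :=
    { cf := E.cf, cX := E.cX, cY := E.cY, mX := E.mX, xX := hwX, xp := hwp, xs := hwr', vx := hvw,
      yY := E.yY, yq := E.yq, yr := E.yr, vy := E.vy }
  have hw3 : w ∈ f3 := hMCE V G z v p q r r' f1 f2 f3 f4 X₀ Y₀ w y E'
  exact hT.2.2.1 (inG hGAA hSYM E hT.1 hc hwX hw3)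

private lemma partB [Finite V] (hCRN : StCRN) (hHFA : StHFA) (hCLS : StCLS) (hPVB : StPVB)
    (hCUA : StCUA) (hGAA : StGAA) (hENS : StENS) (hENT : StENT) (hMCE : StMCE) (hSYM : StSYM)
    (E : Env G z v p q r r' f1 f2 f3 f4 X₀ Y₀ x y) (hx : x ∈ f3) (hy : y ∈ f1)
    (hYM : ∀ w, G.Adj v w → w ≠ z → w ≠ x → w ≠ y → w ∉ Y₀) :
    (∀ w, G.Adj v w → w ≠ z → w ≠ x → w ≠ y → w ∈ f1) ∨
    (∃ Φ, IsFace (dl G p q) {v}ᶜ Φ ∧ z ∉ Φ ∧ y ∈ Φ ∧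
      ∀ w, G.Adj v w → w ≠ z → w ≠ x → w ≠ y → w ∈ Φ) := by
  obtain ⟨hxz, hxq, hyz, hyp⟩ := facts E
  obtain ⟨n1, _, n3, _, _, _⟩ := hCRN V G z v p q r r' f1 f2 f3 f4 E.cf
  have hxy : y ≠ x := by
    intro h
    obtain ⟨σ₁, b₁, Y₁, c₁⟩ := E.cX
    have h1 := cut_X c₁ E.xX
    apply h1.2.2.2.2
    rw [← h]
    exact (E.mX _ _ _ _ c₁).2 E.yY
  rcases (hCLS V G z v p q r r' f1 f2 f3 f4 E.cf).1 x E.vx hxz with h | h | h | h
  · obtain ⟨F, hF, hsub⟩ := h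
    rcases (hHFA V G z v p q r r' f1 f2 f3 f4 E.cf).2.2.2.2 F hF with h1 | h1 | h1
    · left
      intro w hvw hwz hwx hwy
      have hwF : w ∈ F := hsub ⟨hvw, by
        simp only [Set.mem_insert_iff, Set.mem_singleton_iff, not_or]
        exact ⟨hwz, hwx⟩⟩
      rw [h1] at hwF
      rcases hwF.1 with h2 | h2
      · exact h2
      · exfalso
        obtain ⟨σ₂, b₂, X₂, c₂⟩ := E.cY
        have h3 := (hCUA V G z v p q r r' f1 f2 f3 f4 E.cf σ₂ b₂ X₂ Y₀ c₂).2.1.1 h2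
        rcases h3 with h3 | h3
        · exact hwz h3
        · exact hYM w hvw hwz hwx hwy h3
    · exfalso
      have hyF : y ∈ F := hsub ⟨E.vy, by
        simp only [Set.mem_insert_iff, Set.mem_singleton_iff, not_or]
        exact ⟨hyz, hxy⟩⟩
      rw [h1] at hyF
      rcases hyF.1 with h2 | h2
      · have h3 : y ∈ f1 ∩ f3 := ⟨hy, h2⟩
        rw [E.cf.x13] at h3
        exact hyz h3
      · have h3 : y ∈ f4 ∩ f1 := ⟨h2, hy⟩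
        rw [E.cf.x41] at h3
        rcases h3 with h3 | h3
        · exact hyz h3
        · exact hyp h3
    · right
      refine ⟨F, h1.1, h1.2, hsub ⟨E.vy, by
        simp only [Set.mem_insert_iff, Set.mem_singleton_iff, not_or]
        exact ⟨hyz, hxy⟩⟩, ?_⟩
      intro w hvw hwz hwx hwy
      exact hsub ⟨hvw, by
        simp only [Set.mem_insert_iff, Set.mem_singleton_iff, not_or]
        exact ⟨hwz, hwx⟩⟩
  · left
    intro w hvw hwz hwx hwy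
    obtain ⟨hwX, hwr, hwr'⟩ := notX hCRN hPVB hGAA hENS hENT hMCE hSYM E hx hy hvw hwz hwx hwy
    have hwp : w ≠ p := fun h => (hPVB V G z v p q r r' f1 f2 f3 f4 E.cf).1 (by
      rw [← h]; exact hvw)
    have hwv : w ≠ v := fun h => G.ne_of_adj hvw h.symm
    have h1 : w = p ∨ Cof (dl G p q) {v}ᶜ p w := h ⟨hvw, by
      simp only [Set.mem_insert_iff, Set.mem_singleton_iff, not_or]
      exact ⟨hwz, hwx⟩⟩
    have h2 : Cof (dl G p q) {v}ᶜ p w := h1.resolve_left hwp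
    obtain ⟨σ₁, b₁, Y₁, c₁⟩ := E.cX
    by_cases hσ : w = σ₁
    · rw [hσ]
      exact c₁.sf
    by_cases hb : w = b₁
    · exfalso
      apply hwr'
      exact n3 w (by rw [hb]; exact c₁.bf) hwz h2
    have hwY : w ∈ Y₁ := cut_cov c₁ hwv hwz hσ hb hwX
    exact (hCUA V G z v p q r r' f1 f2 f3 f4 E.cf σ₁ b₁ X₀ Y₁ c₁).2.2.2.1.1 w hwY h2
  · exfalso
    have h1 : y = q ∨ Cof (dl G p q) {v}ᶜ q y := h ⟨E.vy, by
      simp only [Set.mem_insert_iff, Set.mem_singleton_iff, not_or]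
      exact ⟨hyz, hxy⟩⟩
    exact E.yr (n1 y hy hyz (h1.resolve_left E.yq))
  · exfalso
    obtain ⟨t, Γ, hT⟩ := h
    obtain ⟨b, X, Y, hc⟩ := (hENS V G z v p q r r' f1 f2 f3 f4 X₀ Y₀ x y E).2.2.2 t Γ hT.1
    exact hT.2.2.1 (inG hGAA hSYM E hT.1 hc E.xX hx)

end

theorem hMCF (hBAS : StBAS) (hCRN : StCRN) (hHFA : StHFA) (hCLS : StCLS) (hPVB : StPVB)
    (hCUA : StCUA) (hGAA : StGAA) (hENS : StENS) (hENT : StENT) (hMCE : StMCE) (hSYM : StSYM) :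
    StMCF := by
  intro V _ G z v p q r r' f1 f2 f3 f4 X₀ Y₀ x y E hx hy
  obtain ⟨hxz, hxq, hyz, hyp⟩ := facts E
  have hE := hENS V G z v p q r r' f1 f2 f3 f4 X₀ Y₀ x y E
  have E' := hE.1
  have hE3 := hE.2.2.1
  have hnX : ∀ w, G.Adj v w → w ≠ z → w ≠ x → w ≠ y → w ∉ X₀ ∧ w ≠ r ∧ w ≠ r' :=
    fun w h1 h2 h3 h4 => notX hCRN hPVB hGAA hENS hENT hMCE hSYM E hx hy h1 h2 h3 h4
  have hnY : ∀ w, G.Adj v w → w ≠ z → w ≠ x → w ≠ y → w ∉ Y₀ :=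
    fun w h1 h2 h3 h4 => (notX hCRN hPVB hGAA hENS hENT hMCE hSYM E' hy hx h1 h2 h4 h3).1
  have hB1 := partB hCRN hHFA hCLS hPVB hCUA hGAA hENS hENT hMCE hSYM E hx hy hnY
  have hB2 := partB hCRN hHFA hCLS hPVB hCUA hGAA hENS hENT hMCE hSYM E' hy hx
    (fun w h1 h2 h3 h4 => (hnX w h1 h2 h4 h3).1)
  rw [dl_comm G p q] at hB2
  -- an element of M
  obtain ⟨w, hvw, hwz, hwx, hwy⟩ : ∃ w, G.Adj v w ∧ w ≠ z ∧ w ≠ x ∧ w ≠ y := by
    by_contra hno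
    push Not at hno
    have h5 := (hBAS V G E.cf.bh).2.2.2.1 v
    have hsub : {a | G.Adj v a} ⊆ ({z, x, y} : Set V) := by
      intro a ha
      simp only [Set.mem_insert_iff, Set.mem_singleton_iff]
      by_cases h1 : a = z
      · exact Or.inl h1
      by_cases h2 : a = x
      · exact Or.inr (Or.inl h2)
      · exact Or.inr (Or.inr (hno a ha h1 h2))
    have h6 := Set.ncard_le_ncard hsub (Set.toFinite _)
    have h7 := Set.ncard_insert_le z ({x, y} : Set V)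
    have h8 := Set.ncard_insert_le x ({y} : Set V)
    rw [Set.ncard_singleton] at h8
    omega
  obtain ⟨hwX, hwr, hwr'⟩ := hnX w hvw hwz hwx hwy
  have hwY := hnY w hvw hwz hwx hwy
  obtain ⟨hvp, hvq⟩ := hPVB V G z v p q r r' f1 f2 f3 f4 E.cf
  have hwp : w ≠ p := fun h => hvp (by rw [← h]; exact hvw)
  have hwq : w ≠ q := fun h => hvq (by rw [← h]; exact hvw)
  have hwv : w ≠ v := fun h => G.ne_of_adj hvw h.symm
  -- `w` on `f1` is not cofacial with `x`, `w` on `f3` is not cofacial with `y`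
  have k1 : ∀ F, IsFace (dl G p q) {v}ᶜ F → x ∈ F → w ∈ F → w ∉ f1 := by
    intro F hF hxF hwF hw1
    exact hE3 w hw1 x hx hwz hwp hwr hxz hxq E.xs (Or.inr (Or.inl E.xX)) ⟨F, hF, hwF, hxF⟩
  have k3 : ∀ F, IsFace (dl G p q) {v}ᶜ F → y ∈ F → w ∈ F → w ∉ f3 := by
    intro F hF hyF hwF hw3
    exact hE3 y hy w hw3 hyz hyp E.yr hwz hwq hwr' (Or.inl (Or.inr E.yY)) ⟨F, hF, hyF, hwF⟩
  rcases hB1 with h1 | ⟨Φ, hΦ, hzΦ, hyΦ, hMΦ⟩
  · have hw1 := h1 w hvw hwz hwx hwy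
    rcases hB2 with h2 | ⟨Φ', hΦ', hzΦ', hxΦ', hMΦ'⟩
    · have hw3 := h2 w hvw hwz hwy hwx
      have h3 : w ∈ f1 ∩ f3 := ⟨hw1, hw3⟩
      rw [E.cf.x13] at h3
      exact hwz h3
    · exact k1 Φ' hΦ' hxΦ' (hMΦ' w hvw hwz hwy hwx) hw1
  · have hwΦ := hMΦ w hvw hwz hwx hwy
    rcases hB2 with h2 | ⟨Φ', hΦ', hzΦ', hxΦ', hMΦ'⟩
    · exact k3 Φ hΦ hyΦ hwΦ (h2 w hvw hwz hwy hwx)
    · have hwΦ' := hMΦ' w hvw hwz hwy hwx
      obtain ⟨σ, b, Y, c⟩ := E.cX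
      have hwσ : w ≠ σ := fun h => k1 Φ' hΦ' hxΦ' hwΦ' (by rw [h]; exact c.sf)
      have hwb : w ≠ b := fun h => k3 Φ hΦ hyΦ hwΦ (by rw [h]; exact c.bf)
      have hwY₁ : w ∈ Y := cut_cov c hwv hwz hwσ hwb hwX
      have h3 := (hCUA V G z v p q r r' f1 f2 f3 f4 E.cf σ b X₀ Y c).1 Φ' hΦ' hzΦ'
        ⟨x, hxΦ', E.xX⟩ ⟨w, hwΦ', hwY₁⟩
      have hσp : σ ≠ p := fun h => (cut_X c c.sep.xL).2.2.1 h.symm
      have hσr : σ ≠ r := fun h => (cut_Y c c.rY).2.2.1 h.symm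
      exact hE3 σ c.sf x hx (cut_sz c) hσp hσr hxz hxq E.xs (Or.inr (Or.inl E.xX))
        ⟨Φ', hΦ', h3.1, hxΦ'⟩

end Pool.Agent.Helper47.MA
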